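import Pool.Agent.H8.TX.Targets

/-!
# RNG: a ring of regular functions and its evaluations (helper45)
-/

set_option autoImplicit false

open MvPolynomial
open Pool.Agent.H18.HIT Pool.Agent.H18.HX Pool.Agent.H18.VZ
open Pool.Agent.H8.TX

namespace Pool.Agent.H45.TX

section

variable {k K : Type} [Field k] [Field K] [Algebra k K] {P : Po 5 k} {ξ : Fin 5 → K}

theorem eval_zero_of_aeval (hG : Gp P ξ) (p : Po 5 k) (hp : aeval ξ p = 0) (z : Fin 5 → k)
    (hz : eval z P = 0) (hz1 : z 1 = 1) : eval z p = 0 := by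
  set s := p.totalDegree with hs
  set H : Po 5 k := ∑ t ∈ Finset.range (s + 1), X 1 ^ (s - t) * homogeneousComponent t p with hH
  have hsum : ∑ t ∈ Finset.range (s + 1), homogeneousComponent t p = p :=
    sum_homogeneousComponent p
  have hhom : H.IsHomogeneous s := by
    refine IsHomogeneous.sum _ _ _ fun t ht => ?_
    have ht' : t ≤ s := Nat.lt_succ_iff.1 (Finset.mem_range.1 ht)
    have h1 : (X 1 ^ (s - t) * homogeneousComponent t p : Po 5 k).IsHomogeneous ((s - t) + t) :=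
      (isHomogeneous_X_pow _ _).mul (homogeneousComponent_isHomogeneous t p)
    rwa [Nat.sub_add_cancel ht'] at h1
  have h1 : aeval ξ H = aeval ξ p := by
    conv_rhs => rw [← hsum]
    rw [hH, map_sum, map_sum]
    refine Finset.sum_congr rfl fun t _ => ?_
    rw [map_mul, map_pow, aeval_X, hG.one, one_pow, one_mul]
  have h2 : eval z H = eval z p := by
    conv_rhs => rw [← hsum]
    rw [hH, map_sum, map_sum]
    refine Finset.sum_congr rfl fun t _ => ?_
    rw [map_mul, map_pow, eval_X, hz1, one_pow, one_mul]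
  obtain ⟨g, hg⟩ := (hG.iff s H hhom).1 (h1.trans hp)
  rw [← h2, hg, map_mul, hz, zero_mul]

/-- the ring of the fractions whose denominators are powers of `q` -/
def Rg (q : Po 5 k) (ξ : Fin 5 → K) (_hq : aeval ξ q ≠ 0) : Subalgebra k K where
  carrier := {x | ∃ (p : Po 5 k) (n : ℕ), x * aeval ξ q ^ n = aeval ξ p}
  mul_mem' := by
    rintro x y ⟨p, n, h1⟩ ⟨p', m, h2⟩
    refine ⟨p * p', n + m, ?_⟩
    rw [map_mul, ← h1, ← h2, pow_add]
    ring
  add_mem' := by
    rintro x y ⟨p, n, h1⟩ ⟨p', m, h2⟩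
    refine ⟨p * q ^ m + p' * q ^ n, n + m, ?_⟩
    rw [map_add, map_mul, map_mul, map_pow, map_pow, ← h1, ← h2, pow_add]
    ring
  algebraMap_mem' := fun c => ⟨C c, 0, by rw [pow_zero, mul_one, aeval_C]⟩

theorem mem_Rg (q : Po 5 k) (hq : aeval ξ q ≠ 0) (p : Po 5 k) : aeval ξ p ∈ Rg q ξ hq :=
  ⟨p, 0, by rw [pow_zero, mul_one]⟩

/-- the value of an element -/
noncomputable def vl (q : Po 5 k) (hq : aeval ξ q ≠ 0) (z : Fin 5 → k) (b : Rg q ξ hq) : k :=
  eval z b.2.choose / eval z q ^ b.2.choose_spec.choose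

theorem vl_eq (hG : Gp P ξ) (q : Po 5 k) (hq : aeval ξ q ≠ 0) (z : Fin 5 → k)
    (hz : eval z P = 0) (hz1 : z 1 = 1) (hzq : eval z q ≠ 0) (b : Rg q ξ hq) (p : Po 5 k) (n : ℕ)
    (h : (b : K) * aeval ξ q ^ n = aeval ξ p) : vl q hq z b = eval z p / eval z q ^ n := by
  have h0 : (b : K) * aeval ξ q ^ b.2.choose_spec.choose = aeval ξ b.2.choose :=
    b.2.choose_spec.choose_spec
  unfold vl
  generalize b.2.choose_spec.choose = m at h0 ⊢
  generalize b.2.choose = p' at h0 ⊢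
  have h1 : aeval ξ (p' * q ^ n - p * q ^ m) = 0 := by
    rw [map_sub, map_mul, map_mul, map_pow, map_pow, ← h0, ← h]
    ring
  have h2 := eval_zero_of_aeval hG _ h1 z hz hz1
  rw [map_sub, map_mul, map_mul, map_pow, map_pow, sub_eq_zero] at h2
  rw [div_eq_div_iff (pow_ne_zero _ hzq) (pow_ne_zero _ hzq)]
  exact h2

/-- the evaluation -/
noncomputable def evh (hG : Gp P ξ) (q : Po 5 k) (hq : aeval ξ q ≠ 0) (z : Fin 5 → k)
    (hz : eval z P = 0) (hz1 : z 1 = 1) (hzq : eval z q ≠ 0) : Rg q ξ hq →ₐ[k] k where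
  toFun := vl q hq z
  map_one' := by
    rw [vl_eq hG q hq z hz hz1 hzq 1 1 0 (by simp)]
    simp
  map_mul' := by
    intro x y
    obtain ⟨p, n, h1⟩ := x.2
    obtain ⟨p', m, h2⟩ := y.2
    rw [vl_eq hG q hq z hz hz1 hzq x p n h1, vl_eq hG q hq z hz hz1 hzq y p' m h2,
      vl_eq hG q hq z hz hz1 hzq (x * y) (p * p') (n + m) (by
        rw [map_mul, ← h1, ← h2, pow_add]
        push_cast
        ring), map_mul, pow_add, div_mul_div_comm]
  map_zero' := by
    rw [vl_eq hG q hq z hz hz1 hzq 0 0 0 (by simp)]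
    simp
  map_add' := by
    intro x y
    obtain ⟨p, n, h1⟩ := x.2
    obtain ⟨p', m, h2⟩ := y.2
    rw [vl_eq hG q hq z hz hz1 hzq x p n h1, vl_eq hG q hq z hz hz1 hzq y p' m h2,
      vl_eq hG q hq z hz hz1 hzq (x + y) (p * q ^ m + p' * q ^ n) (n + m) (by
        rw [map_add, map_mul, map_mul, map_pow, map_pow, ← h1, ← h2, pow_add]
        push_cast
        ring), map_add, map_mul, map_mul, map_pow, map_pow, pow_add,
      div_add_div _ _ (pow_ne_zero _ hzq) (pow_ne_zero _ hzq)]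
    ring
  commutes' := by
    intro c
    rw [vl_eq hG q hq z hz hz1 hzq (algebraMap k _ c) (C c) 0 (by
      rw [pow_zero, mul_one, aeval_C]
      rfl)]
    simp

end

theorem pf_RNG : T_RNG := by
  intro k K _ _ _ P q ξ hG hq
  refine ⟨Rg q ξ hq, mem_Rg q hq, ⟨1, 1, ?_⟩, ?_, fun b => b.2⟩
  · rw [pow_one, map_one, inv_mul_cancel₀ hq]
  · intro z hz hz1 hzq
    refine ⟨evh hG q hq z hz hz1 hzq, fun p h => ?_⟩
    have := vl_eq hG q hq z hz hz1 hzq ⟨aeval ξ p, h⟩ p 0 (by simp)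
    rw [pow_zero, div_one] at this
    exact this

end Pool.Agent.H45.TX
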